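import Pool.Agent.H92.RR.Targets
import Pool.Agent.H23.RR.RPRS
import Pool.Agent.H74.MT.GEN

/-!
# Row RODE of the board rr (helper92, MP_34b97f_an)

The measure of a rationally almost periodic function is ergodic.
-/

set_option autoImplicit false

open MeasureTheory ProbabilityTheory Filter Topology Finset

namespace Pool.Agent.H13.RR

open Pool.Agent.H89.MT Pool.Agent.H92.RR

/-! ### logarithmic averages -/

theorem lavg_mono {f g : ℕ → ℝ} (h : ∀ n, 1 ≤ n → f n ≤ g n) (N : ℕ) : lavg N f ≤ lavg N g := by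
  unfold lavg
  apply div_le_div_of_nonneg_right _ (Real.log_natCast_nonneg N)
  apply Finset.sum_le_sum
  intro n hn
  exact div_le_div_of_nonneg_right (h n (Finset.mem_Icc.1 hn).1) (Nat.cast_nonneg n)

theorem lavg_congr {f g : ℕ → ℝ} (h : ∀ n, 1 ≤ n → f n = g n) (N : ℕ) : lavg N f = lavg N g :=
  le_antisymm (lavg_mono (fun n hn => (h n hn).le) N) (lavg_mono (fun n hn => (h n hn).ge) N)

theorem lavg_sub (f g : ℕ → ℝ) (N : ℕ) :
    lavg N (fun n => f n - g n) = lavg N f - lavg N g := by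
  unfold lavg
  rw [← sub_div, ← Finset.sum_sub_distrib]
  congr 1
  exact Finset.sum_congr rfl (fun n _ => sub_div _ _ _)

theorem lavg_add (f g : ℕ → ℝ) (N : ℕ) :
    lavg N (fun n => f n + g n) = lavg N f + lavg N g := by
  unfold lavg
  rw [← add_div, ← Finset.sum_add_distrib]
  congr 1
  exact Finset.sum_congr rfl (fun n _ => add_div _ _ _)

theorem lavg_mul (c : ℝ) (f : ℕ → ℝ) (N : ℕ) :
    lavg N (fun n => c * f n) = c * lavg N f := by
  unfold lavg
  rw [← mul_div_assoc, Finset.mul_sum]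
  congr 1
  exact Finset.sum_congr rfl (fun n _ => mul_div_assoc _ _ _)

theorem lavg_sum {ι : Type*} (s : Finset ι) (f : ι → ℕ → ℝ) (N : ℕ) :
    lavg N (fun n => ∑ i ∈ s, f i n) = ∑ i ∈ s, lavg N (f i) := by
  classical
  induction s using Finset.induction_on with
  | empty =>
    simp only [Finset.sum_empty]
    unfold lavg
    simp
  | insert i s hi ih =>
    rw [Finset.sum_insert hi, ← ih, ← lavg_add]
    congr 1
    funext n
    rw [Finset.sum_insert hi]

theorem abs_lavg_sub (f g : ℕ → ℝ) (N : ℕ) :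
    |lavg N f - lavg N g| ≤ lavg N (fun n => |f n - g n|) := by
  rw [← lavg_sub, abs_le]
  constructor
  · have h : lavg N (fun n => (-1) * |f n - g n|) ≤ lavg N (fun n => f n - g n) :=
      lavg_mono (fun n _ => by linarith [neg_abs_le (f n - g n)]) N
    rw [lavg_mul] at h
    linarith
  · exact lavg_mono (fun n _ => le_abs_self _) N

theorem lavg_shift {f : ℕ → ℝ} {C : ℝ} (hf : ∀ n, |f n| ≤ C) (k : ℕ) :
    Tendsto (fun N => lavg N (fun n => f (n + k)) - lavg N f) atTop (𝓝 0) := by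
  induction k with
  | zero => simp
  | succ k ih =>
    have h := Pool.Agent.H23.RR.prs_lavg (fun n => f (n + k)) C (fun n => hf _)
    have h2 := h.add ih
    rw [add_zero] at h2
    refine h2.congr (fun N => ?_)
    have e : (fun n => f (n + 1 + k)) = fun n => f (n + (k + 1)) := by
      funext n
      congr 1
      omega
    rw [e]
    ring

/-! ### periodic sequences -/

theorem sum_per {p : ℕ → ℝ} {q : ℕ} (hp : ∀ n, p (n + q) = p n) (n : ℕ) :
    ∑ i ∈ range q, p (n + i) = ∑ i ∈ range q, p i := by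
  induction n with
  | zero => simp
  | succ n ih =>
    rw [← ih]
    have h1 : ∑ i ∈ range (q + 1), p (n + i) = ∑ i ∈ range q, p (n + 1 + i) + p n := by
      rw [Finset.sum_range_succ', add_zero]
      congr 1
      refine Finset.sum_congr rfl (fun i _ => ?_)
      congr 1
      omega
    have h2 : ∑ i ∈ range (q + 1), p (n + i) = ∑ i ∈ range q, p (n + i) + p n := by
      rw [Finset.sum_range_succ, hp]
    linarith

theorem bdd_per {p : ℕ → ℝ} {q : ℕ} (hq : 0 < q) (hp : ∀ n, p (n + q) = p n) :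
    ∃ C : ℝ, ∀ n, |p n| ≤ C := by
  refine ⟨∑ i ∈ range q, |p i|, fun n => ?_⟩
  have h1 : p (n % q) = p n := Function.Periodic.map_mod_nat hp n
  rw [← h1]
  exact Finset.single_le_sum (f := fun i => |p i|) (fun i _ => abs_nonneg _)
    (Finset.mem_range.2 (Nat.mod_lt n hq))

theorem lavg_per {p : ℕ → ℝ} {q : ℕ} (hq : 0 < q) (hp : ∀ n, p (n + q) = p n) :
    Tendsto (fun N => lavg N p) atTop (𝓝 ((∑ i ∈ range q, p i) / q)) := by
  obtain ⟨C, hC⟩ := bdd_per hq hp
  have hq' : (q : ℝ) ≠ 0 := by exact_mod_cast hq.ne'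
  have h1 : Tendsto (fun N => ∑ i ∈ range q, (lavg N (fun n => p (n + i)) - lavg N p)) atTop
      (𝓝 0) := by
    have := tendsto_finsetSum (range q) (fun i (_ : i ∈ range q) => lavg_shift hC i)
    simpa using this
  have h2 : ∀ N, ∑ i ∈ range q, (lavg N (fun n => p (n + i)) - lavg N p) =
      (∑ i ∈ range q, p i) * lavg N (fun _ => (1 : ℝ)) - q * lavg N p := by
    intro N
    have e1 : ∑ i ∈ range q, lavg N (fun n => p (n + i)) =
        (∑ i ∈ range q, p i) * lavg N (fun _ => (1 : ℝ)) := by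
      rw [← lavg_sum (range q) (fun i n => p (n + i)), ← lavg_mul]
      apply lavg_congr
      intro n _
      rw [mul_one]
      exact sum_per hp n
    rw [Finset.sum_sub_distrib, Finset.sum_const, card_range, nsmul_eq_mul, e1]
  have h3 : Tendsto (fun N => (∑ i ∈ range q, p i) * lavg N (fun _ => (1 : ℝ))) atTop
      (𝓝 ((∑ i ∈ range q, p i) * 1)) := Pool.Agent.H74.MT.tendsto_lavg_one.const_mul _
  have h4 := (h3.sub h1).div_const (q : ℝ)
  rw [mul_one, sub_zero] at h4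
  refine h4.congr (fun N => ?_)
  rw [h2]
  field_simp
  ring

theorem ces_per {p : ℕ → ℝ} {q : ℕ} (hq : 0 < q) (hp : ∀ n, p (n + q) = p n) :
    Tendsto (fun M : ℕ => (∑ m ∈ range M, p m) / M) atTop (𝓝 ((∑ i ∈ range q, p i) / q)) := by
  have hq' : (q : ℝ) ≠ 0 := by exact_mod_cast hq.ne'
  set μ : ℝ := (∑ i ∈ range q, p i) / q with hμ
  have hsp : ∀ M : ℕ, ∑ m ∈ range (M + q), (p m - μ) = ∑ m ∈ range M, (p m - μ) := by
    intro M
    rw [Finset.sum_range_add]
    have h1 : ∑ x ∈ range q, (p (M + x) - μ) = 0 := by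
      rw [Finset.sum_sub_distrib, sum_per hp M, Finset.sum_const, card_range, nsmul_eq_mul, hμ]
      field_simp
      ring
    rw [h1, add_zero]
  obtain ⟨C, hC⟩ := bdd_per (p := fun M => ∑ m ∈ range M, (p m - μ)) hq hsp
  have h1 : Tendsto (fun M : ℕ => (∑ m ∈ range M, (p m - μ)) / M) atTop (𝓝 0) := by
    have h2 : Tendsto (fun M : ℕ => C / (M : ℝ)) atTop (𝓝 0) :=
      tendsto_const_nhds.div_atTop tendsto_natCast_atTop_atTop
    refine squeeze_zero_norm (fun M => ?_) h2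
    rw [Real.norm_eq_abs, abs_div, Nat.abs_cast]
    exact div_le_div_of_nonneg_right (hC M) (Nat.cast_nonneg M)
  have h2 := h1.add_const μ
  rw [zero_add] at h2
  refine h2.congr' ?_
  filter_upwards [eventually_ge_atTop 1] with M hM
  have hM' : (M : ℝ) ≠ 0 := by
    have : 0 < M := hM
    exact_mod_cast this.ne'
  rw [Finset.sum_sub_distrib, Finset.sum_const, card_range, nsmul_eq_mul]
  field_simp
  ring

/-! ### products -/

theorem mul_diff {x y a b : ℝ} (hx : |x| ≤ 1) (hb : |b| ≤ 1) :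
    |x * a - y * b| ≤ |x - y| + |a - b| := by
  have h : x * a - y * b = x * (a - b) + (x - y) * b := by ring
  rw [h]
  refine (abs_add_le _ _).trans ?_
  rw [abs_mul, abs_mul]
  nlinarith [abs_nonneg (a - b), abs_nonneg (x - y), abs_nonneg x, abs_nonneg b]

theorem pow_diff {x y : ℝ} (hx : |x| ≤ 1) (hy : |y| ≤ 1) (k : ℕ) :
    |x ^ k - y ^ k| ≤ k * |x - y| := by
  induction k with
  | zero => simp
  | succ k ih =>
    rw [pow_succ, pow_succ]
    have h1 : |x ^ k| ≤ 1 := by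
      rw [abs_pow]
      exact pow_le_one₀ (abs_nonneg _) hx
    refine (mul_diff h1 hy).trans ?_
    push_cast
    linarith

theorem prod_bd (J : Finset ℤ) (a : ℤ → ℕ) (x : ℤ → I1) : |∏ j ∈ J, (x j : ℝ) ^ a j| ≤ 1 := by
  rw [Finset.abs_prod]
  refine Finset.prod_le_one (fun _ _ => abs_nonneg _) (fun j _ => ?_)
  rw [abs_pow]
  exact pow_le_one₀ (abs_nonneg _) (abs_le.2 ⟨(x j).2.1, (x j).2.2⟩)

theorem prod_diff (J : Finset ℤ) (a : ℤ → ℕ) (x y : ℤ → I1) :
    |∏ j ∈ J, (x j : ℝ) ^ a j - ∏ j ∈ J, (y j : ℝ) ^ a j| ≤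
      ∑ j ∈ J, (a j : ℝ) * |(x j : ℝ) - y j| := by
  classical
  induction J using Finset.induction_on with
  | empty => simp
  | insert i s hi ih =>
    rw [Finset.prod_insert hi, Finset.prod_insert hi, Finset.sum_insert hi]
    have h1 : |(x i : ℝ)| ≤ 1 := abs_le.2 ⟨(x i).2.1, (x i).2.2⟩
    have h2 : |(y i : ℝ)| ≤ 1 := abs_le.2 ⟨(y i).2.1, (y i).2.2⟩
    have h3 : |(x i : ℝ) ^ a i| ≤ 1 := by
      rw [abs_pow]
      exact pow_le_one₀ (abs_nonneg _) h1
    refine (mul_diff h3 (prod_bd s a y)).trans ?_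
    exact add_le_add (pow_diff h1 h2 _) ih

/-! ### the distance to the periodic sequence -/

/-- the distance at the coordinate `j` -/
noncomputable def dd (u : ℕ → I1) (Q : ℤ → I1) (j : ℤ) (n : ℕ) : ℝ :=
  |(pt u n j : ℝ) - Q ((n : ℤ) + j)|

theorem I1_diff (a b : I1) : |(a : ℝ) - b| ≤ 2 := by
  have h1 := a.2.1
  have h2 := a.2.2
  have h3 := b.2.1
  have h4 := b.2.2
  rw [abs_le]
  constructor <;> linarith

theorem dd_ev {u : ℕ → I1} {Q : ℤ → I1} {ε : ℝ}
    (hev : ∀ᶠ N : ℕ in atTop, lavg N (fun n => |(u n : ℝ) - Q n|) ≤ ε) (j : ℤ) {δ : ℝ}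
    (hδ : 0 < δ) : ∀ᶠ N : ℕ in atTop, lavg N (dd u Q j) ≤ ε + δ := by
  obtain ⟨k, rfl | rfl⟩ := Int.eq_nat_or_neg j
  · have hD : ∀ n, |(fun n : ℕ => |(u n : ℝ) - Q n|) n| ≤ 2 := by
      intro n
      rw [abs_abs]
      exact I1_diff _ _
    have h1 := lavg_shift hD k
    have h2 := (tendsto_order.1 h1).2 δ hδ
    filter_upwards [hev, h2] with N hN1 hN2
    have e : lavg N (dd u Q k) = lavg N (fun n : ℕ => |(u (n + k) : ℝ) - Q ((n + k : ℕ) : ℤ)|) := by
      apply lavg_congr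
      intro n hn
      unfold dd pt
      rw [if_pos (by omega)]
      have e1 : ((n : ℤ) + (k : ℤ)).toNat = n + k := by omega
      rw [e1]
      push_cast
      rfl
    rw [e]
    linarith
  · have hD : ∀ n, |dd u Q (-(k : ℤ)) n| ≤ 2 := by
      intro n
      unfold dd
      rw [abs_abs]
      exact I1_diff _ _
    have h1 := lavg_shift hD k
    have h2 := (tendsto_order.1 h1).1 (-δ) (by linarith)
    filter_upwards [hev, h2] with N hN1 hN2
    have e : lavg N (fun n => dd u Q (-(k : ℤ)) (n + k)) =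
        lavg N (fun n : ℕ => |(u n : ℝ) - Q n|) := by
      apply lavg_congr
      intro n hn
      unfold dd pt
      have e0 : ((n + k : ℕ) : ℤ) + -(k : ℤ) = n := by push_cast; ring
      rw [e0, if_pos (by omega), Int.toNat_natCast]
    rw [e] at hN2
    linarith

theorem sum_ev {u : ℕ → I1} {Q : ℤ → I1} {ε : ℝ}
    (hev : ∀ᶠ N : ℕ in atTop, lavg N (fun n => |(u n : ℝ) - Q n|) ≤ ε) (J : Finset ℤ)
    (a : ℤ → ℕ) (t : ℤ) {δ : ℝ} (hδ : 0 < δ) :
    ∀ᶠ N : ℕ in atTop, lavg N (fun n => ∑ j ∈ J, (a j : ℝ) * dd u Q (j + t) n) ≤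
      (∑ j ∈ J, (a j : ℝ)) * (ε + δ) := by
  have h : ∀ᶠ N : ℕ in atTop, ∀ j ∈ J, lavg N (dd u Q (j + t)) ≤ ε + δ :=
    (Filter.eventually_all_finset J).2 (fun j _ => dd_ev hev (j + t) hδ)
  filter_upwards [h] with N hN
  rw [lavg_sum J (fun j n => (a j : ℝ) * dd u Q (j + t) n), Finset.sum_mul]
  apply Finset.sum_le_sum
  intro j hj
  rw [lavg_mul]
  exact mul_le_mul_of_nonneg_left (hN j hj) (Nat.cast_nonneg _)

theorem lim_close {f g : ℕ → ℝ} {l l' c ε : ℝ} (hc : 0 ≤ c)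
    (hf : Tendsto (fun N => lavg N f) atTop (𝓝 l)) (hg : Tendsto (fun N => lavg N g) atTop (𝓝 l'))
    (h : ∀ δ : ℝ, 0 < δ → ∀ᶠ N : ℕ in atTop, lavg N (fun n => |f n - g n|) ≤ c * (ε + δ)) :
    |l - l'| ≤ c * ε := by
  have h1 : Tendsto (fun N => |lavg N f - lavg N g|) atTop (𝓝 |l - l'|) := (hf.sub hg).abs
  refine le_of_forall_pos_le_add (fun η hη => ?_)
  have h2 := h (η / (c + 1)) (by positivity)
  have h3 : |l - l'| ≤ c * (ε + η / (c + 1)) := by
    refine le_of_tendsto h1 ?_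
    filter_upwards [h2] with N hN
    exact (abs_lavg_sub f g N).trans hN
  refine h3.trans ?_
  have h4 : c * (η / (c + 1)) ≤ η := by
    rw [mul_div_assoc', div_le_iff₀ (by linarith)]
    nlinarith
  linarith

/-! ### the theorem -/

/-- the monomial, as a continuous function -/
noncomputable def cm (J : Finset ℤ) (a : ℤ → ℕ) (t : ℤ) : C(X, ℝ) where
  toFun x := ∏ j ∈ J, (x (j + t) : ℝ) ^ a j
  continuous_toFun := continuous_finsetProd _ fun j _ =>
    (continuous_subtype_val.comp (continuous_apply (j + t))).pow _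

theorem pf_RODE (hCER : T_CER) (hPRS : T_PRS) : T_ODE := by
  intro u α hα hR hG
  refine hCER α hα (hPRS u α hα hG) ?_
  intro J J' a a'
  set Cc : ℝ := (∑ j ∈ J, (a j : ℝ)) + ∑ j ∈ J', (a' j : ℝ) with hCc
  have hs1 : 0 ≤ ∑ j ∈ J, (a j : ℝ) := Finset.sum_nonneg (fun _ _ => Nat.cast_nonneg _)
  have hs2 : 0 ≤ ∑ j ∈ J', (a' j : ℝ) := Finset.sum_nonneg (fun _ _ => Nat.cast_nonneg _)
  have hC0 : 0 ≤ Cc := add_nonneg hs1 hs2
  set Ia : ℝ := ∫ x, ∏ j ∈ J, (x j : ℝ) ^ a j ∂α with hIa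
  set Ib : ℝ := ∫ x, ∏ j ∈ J', (x j : ℝ) ^ a' j ∂α with hIb
  have hIa1 : |Ia| ≤ 1 := by
    have h := norm_integral_le_of_norm_le_const (μ := α) (C := 1)
      (f := fun x : X => ∏ j ∈ J, (x j : ℝ) ^ a j)
      (Eventually.of_forall (fun x => by rw [Real.norm_eq_abs]; exact prod_bd J a x))
    simpa using h
  -- the limits
  have hGa : Tendsto (fun N => lavg N fun n => ∏ j ∈ J, (pt u n j : ℝ) ^ a j) atTop (𝓝 Ia) := by
    have h := hG (cm J a 0)
    simpa [cm] using h
  have hGb : Tendsto (fun N => lavg N fun n => ∏ j ∈ J', (pt u n j : ℝ) ^ a' j) atTop (𝓝 Ib) := by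
    have h := hG (cm J' a' 0)
    simpa [cm] using h
  have hGm : ∀ m : ℕ, Tendsto (fun N => lavg N fun n => (∏ j ∈ J, (pt u n j : ℝ) ^ a j) *
      ∏ j ∈ J', (pt u n (j + m) : ℝ) ^ a' j) atTop
      (𝓝 (∫ x, (∏ j ∈ J, (x j : ℝ) ^ a j) * ∏ j ∈ J', (x (j + m) : ℝ) ^ a' j ∂α)) := by
    intro m
    have h := hG (cm J a 0 * cm J' a' m)
    simpa [cm] using h
  rw [Metric.tendsto_atTop']
  intro η hη
  obtain ⟨ε, hε, hεη⟩ : ∃ ε : ℝ, 0 < ε ∧ 3 * (Cc * ε) ≤ η / 2 := by
    refine ⟨η / (6 * (Cc + 1)), by positivity, ?_⟩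
    have h1 : Cc * (η / (6 * (Cc + 1))) ≤ η / 6 := by
      rw [mul_div_assoc', div_le_div_iff₀ (by positivity) (by norm_num)]
      nlinarith
    linarith
  obtain ⟨q, Q, hq, hQ, hev⟩ := hR ε hε
  -- the periodic functions
  set QA : ℕ → ℝ := fun n => ∏ j ∈ J, (Q ((n : ℤ) + j) : ℝ) ^ a j with hQA
  set QB : ℕ → ℝ := fun n => ∏ j ∈ J', (Q ((n : ℤ) + j) : ℝ) ^ a' j with hQB
  have hQAp : ∀ n, QA (n + q) = QA n := by
    intro n
    simp only [hQA]
    refine Finset.prod_congr rfl (fun j _ => ?_)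
    have : ((n + q : ℕ) : ℤ) + j = ((n : ℤ) + j) + q := by push_cast; ring
    rw [this, hQ]
  have hQBp : ∀ n, QB (n + q) = QB n := by
    intro n
    simp only [hQB]
    refine Finset.prod_congr rfl (fun j _ => ?_)
    have : ((n + q : ℕ) : ℤ) + j = ((n : ℤ) + j) + q := by push_cast; ring
    rw [this, hQ]
  have hQA1 : ∀ n, |QA n| ≤ 1 := fun n => prod_bd J a (fun j => Q ((n : ℤ) + j))
  have hQB1 : ∀ n, |QB n| ≤ 1 := fun n => prod_bd J' a' (fun j => Q ((n : ℤ) + j))
  set ba : ℝ := (∑ i ∈ range q, QA i) / q with hba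
  set bb : ℝ := (∑ i ∈ range q, QB i) / q with hbb
  have hq' : (0 : ℝ) < q := by exact_mod_cast hq
  have hbb1 : |bb| ≤ 1 := by
    rw [hbb, abs_div, abs_of_pos hq', div_le_one hq']
    refine (Finset.abs_sum_le_sum_abs _ _).trans ?_
    refine (Finset.sum_le_sum (fun i _ => hQB1 i)).trans ?_
    simp
  -- closeness
  have cA : |Ia - ba| ≤ Cc * ε := by
    have h := lim_close (c := ∑ j ∈ J, (a j : ℝ)) (ε := ε) hs1 hGa (lavg_per hq hQAp) (by
      intro δ hδ
      filter_upwards [sum_ev hev J a 0 hδ] with N hN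
      refine le_trans (lavg_mono (fun n _ => ?_) N) hN
      refine (prod_diff J a (fun j => pt u n j) (fun j => Q ((n : ℤ) + j))).trans ?_
      simp [dd])
    refine h.trans (mul_le_mul_of_nonneg_right ?_ hε.le)
    rw [hCc]
    linarith
  have cB : |Ib - bb| ≤ Cc * ε := by
    have h := lim_close (c := ∑ j ∈ J', (a' j : ℝ)) (ε := ε) hs2 hGb (lavg_per hq hQBp) (by
      intro δ hδ
      filter_upwards [sum_ev hev J' a' 0 hδ] with N hN
      refine le_trans (lavg_mono (fun n _ => ?_) N) hN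
      refine (prod_diff J' a' (fun j => pt u n j) (fun j => Q ((n : ℤ) + j))).trans ?_
      simp [dd])
    refine h.trans (mul_le_mul_of_nonneg_right ?_ hε.le)
    rw [hCc]
    linarith
  have cM : ∀ m : ℕ, |(∫ x, (∏ j ∈ J, (x j : ℝ) ^ a j) * ∏ j ∈ J', (x (j + m) : ℝ) ^ a' j ∂α) -
      (∑ i ∈ range q, QA i * QB (i + m)) / q| ≤ Cc * ε := by
    intro m
    have hper : ∀ n, QA (n + q) * QB (n + q + m) = QA n * QB (n + m) := by
      intro n
      rw [hQAp]
      have : n + q + m = n + m + q := by omega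
      rw [this, hQBp]
    refine lim_close (ε := ε) hC0 (hGm m) (lavg_per (p := fun n => QA n * QB (n + m)) hq hper) ?_
    intro δ hδ
    filter_upwards [sum_ev hev J a 0 hδ, sum_ev hev J' a' m hδ] with N hN1 hN2
    have h3 : lavg N (fun n => |(∏ j ∈ J, (pt u n j : ℝ) ^ a j) *
        ∏ j ∈ J', (pt u n (j + m) : ℝ) ^ a' j - QA n * QB (n + m)|) ≤
        lavg N (fun n => (∑ j ∈ J, (a j : ℝ) * dd u Q (j + 0) n) +
          ∑ j ∈ J', (a' j : ℝ) * dd u Q (j + m) n) := by
      refine lavg_mono (fun n _ => ?_) N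
      refine (mul_diff (prod_bd J a (fun j => pt u n j)) (hQB1 (n + m))).trans ?_
      refine add_le_add ?_ ?_
      · refine (prod_diff J a (fun j => pt u n j) (fun j => Q ((n : ℤ) + j))).trans ?_
        simp [dd]
      · have e : QB (n + m) = ∏ j ∈ J', (Q ((n : ℤ) + (j + m)) : ℝ) ^ a' j := by
          simp only [hQB]
          refine Finset.prod_congr rfl (fun j _ => ?_)
          have : ((n + m : ℕ) : ℤ) + j = (n : ℤ) + (j + m) := by push_cast; ring
          rw [this]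
        rw [e]
        exact prod_diff J' a' (fun j => pt u n (j + m)) (fun j => Q ((n : ℤ) + (j + m)))
    rw [lavg_add] at h3
    rw [hCc, add_mul]
    linarith
  -- the averages over `m`
  have hces : Tendsto (fun M : ℕ => (∑ m ∈ range M, (∑ i ∈ range q, QA i * QB (i + m)) / q) / M)
      atTop (𝓝 (ba * bb)) := by
    have h1 : ∀ i, Tendsto (fun M : ℕ => (∑ m ∈ range M, QB (i + m)) / M) atTop (𝓝 bb) := by
      intro i
      have h := ces_per (p := fun m => QB (i + m)) hq (fun m => by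
        have : i + (m + q) = i + m + q := by omega
        simp only [this, hQBp])
      rw [sum_per hQBp i] at h
      exact h
    have h2 : Tendsto (fun M : ℕ => (∑ i ∈ range q, QA i * ((∑ m ∈ range M, QB (i + m)) / M)) / q)
        atTop (𝓝 ((∑ i ∈ range q, QA i * bb) / q)) :=
      (tendsto_finsetSum (range q) (fun i _ => (h1 i).const_mul (QA i))).div_const _
    have h3 : (∑ i ∈ range q, QA i * bb) / q = ba * bb := by
      rw [← Finset.sum_mul, hba]
      ring
    rw [h3] at h2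
    refine h2.congr (fun M => ?_)
    simp only [Finset.sum_div, Finset.mul_sum]
    rw [Finset.sum_comm]
    refine Finset.sum_congr rfl (fun m _ => Finset.sum_congr rfl (fun i _ => ?_))
    ring
  obtain ⟨M₀, hM₀⟩ := (Metric.tendsto_atTop'.1 hces) (η / 2) (by linarith)
  refine ⟨M₀, fun M hM => ?_⟩
  have h1 := hM₀ M hM
  have hMpos : 0 < M := by omega
  have hM' : (0 : ℝ) < M := by exact_mod_cast hMpos
  rw [Real.dist_eq] at h1 ⊢
  set S1 : ℝ := (∑ m ∈ range M, ∫ x, (∏ j ∈ J, (x j : ℝ) ^ a j) *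
      ∏ j ∈ J', (x (j + m) : ℝ) ^ a' j ∂α) / M with hS1
  set S2 : ℝ := (∑ m ∈ range M, (∑ i ∈ range q, QA i * QB (i + m)) / q) / M with hS2
  have h2 : |S1 - S2| ≤ Cc * ε := by
    rw [hS1, hS2, ← sub_div, ← Finset.sum_sub_distrib, abs_div, abs_of_pos hM', div_le_iff₀ hM']
    refine (Finset.abs_sum_le_sum_abs _ _).trans ?_
    refine (Finset.sum_le_sum (fun m _ => cM m)).trans ?_
    rw [Finset.sum_const, card_range, nsmul_eq_mul, mul_comm]
  have h3 : |ba * bb - Ia * Ib| ≤ 2 * (Cc * ε) := by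
    have e : ba * bb - Ia * Ib = -((Ia - ba) * bb) - Ia * (Ib - bb) := by ring
    rw [e]
    have e1 : |(Ia - ba) * bb| ≤ Cc * ε := by
      rw [abs_mul]
      nlinarith [abs_nonneg (Ia - ba), abs_nonneg bb]
    have e2 : |Ia * (Ib - bb)| ≤ Cc * ε := by
      rw [abs_mul]
      nlinarith [abs_nonneg (Ib - bb), abs_nonneg Ia]
    have e3 := abs_sub (-((Ia - ba) * bb)) (Ia * (Ib - bb))
    rw [abs_neg] at e3
    linarith
  have h4 : S1 - Ia * Ib = (S1 - S2) + (S2 - ba * bb) + (ba * bb - Ia * Ib) := by ring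
  rw [h4]
  have h5 := abs_add_three (S1 - S2) (S2 - ba * bb) (ba * bb - Ia * Ib)
  linarith

end Pool.Agent.H13.RR
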